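import Mathlib

set_option autoImplicit false
open MeasureTheory Filter Finset

namespace Pool.Agent.W5h67.TR

/-- A limsup lemma: if infinitely often the integral of `F N` is at least `c`, then with positive
measure `F N x` is at least `c / 2` for infinitely many `N`. -/
theorem limsup_pos {Ω : Type} [MeasurableSpace Ω] (μ : Measure Ω) [IsProbabilityMeasure μ]
    (F : ℕ → Ω → ℝ) (hm : ∀ N, Measurable (F N)) (h0 : ∀ N x, 0 ≤ F N x) (h1 : ∀ N x, F N x ≤ 1)
    (c : ℝ) (hc : 0 < c) (h : ∃ᶠ N : ℕ in atTop, c ≤ ∫ x, F N x ∂μ) :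
    μ {x | ∃ᶠ N : ℕ in atTop, c / 2 ≤ F N x} ≠ 0 := by
  set E : ℕ → Set Ω := fun N => {x | c / 2 ≤ F N x} with hE
  have hEm : ∀ N, MeasurableSet (E N) := fun N => measurableSet_le measurable_const (hm N)
  have key : ∀ N, c ≤ ∫ x, F N x ∂μ → c / 2 ≤ μ.real (E N) := by
    intro N hN
    have hle : ∀ x, F N x ≤ c / 2 + (E N).indicator (fun _ => (1 : ℝ)) x := by
      intro x
      by_cases hx : x ∈ E N
      · rw [Set.indicator_of_mem hx]
        have := h1 N x
        linarith
      · rw [Set.indicator_of_notMem hx]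
        have : ¬ c / 2 ≤ F N x := hx
        linarith [not_le.mp this]
    have hint : Integrable (F N) μ :=
      Integrable.of_bound (hm N).aestronglyMeasurable 1
        (Eventually.of_forall fun x => by
          rw [Real.norm_eq_abs, abs_of_nonneg (h0 N x)]; exact h1 N x)
    have hint2 : Integrable (fun x => c / 2 + (E N).indicator (fun _ => (1 : ℝ)) x) μ :=
      (integrable_const _).add ((integrable_const (1 : ℝ)).indicator (hEm N))
    have hI := integral_mono hint hint2 hle
    have hI2 : ∫ x, (c / 2 + (E N).indicator (fun _ => (1 : ℝ)) x) ∂μ = c / 2 + μ.real (E N) := by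
      rw [integral_add (integrable_const _) ((integrable_const (1 : ℝ)).indicator (hEm N)),
        integral_indicator_const _ (hEm N)]
      simp
    rw [hI2] at hI
    linarith
  have hset : {x | ∃ᶠ N : ℕ in atTop, c / 2 ≤ F N x} = ⋂ M : ℕ, ⋃ N : {N // M ≤ N}, E N.1 := by
    ext x
    simp only [Set.mem_setOf_eq, Set.mem_iInter, Set.mem_iUnion, Filter.frequently_atTop, hE]
    constructor
    · intro hx M
      obtain ⟨N, hN, hN2⟩ := hx M
      exact ⟨⟨N, hN⟩, hN2⟩
    · intro hx M
      obtain ⟨⟨N, hN⟩, hN2⟩ := hx M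
      exact ⟨N, hN, hN2⟩
  rw [hset]
  have hanti : Antitone (fun M : ℕ => ⋃ N : {N // M ≤ N}, E N.1) := by
    intro M M' hMM x hx
    simp only [Set.mem_iUnion] at hx ⊢
    obtain ⟨⟨N, hN⟩, hN2⟩ := hx
    exact ⟨⟨N, hMM.trans hN⟩, hN2⟩
  have hmeas : ∀ M : ℕ, MeasurableSet (⋃ N : {N // M ≤ N}, E N.1) := fun M =>
    MeasurableSet.iUnion fun N => hEm _
  have htend := tendsto_measure_iInter_atTop (μ := μ) (fun M => (hmeas M).nullMeasurableSet) hanti
    ⟨0, measure_ne_top _ _⟩
  have hlow : ∀ M : ℕ, ENNReal.ofReal (c / 2) ≤ μ (⋃ N : {N // M ≤ N}, E N.1) := by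
    intro M
    obtain ⟨N, hN, hN2⟩ := (Filter.frequently_atTop.mp h) M
    have h3 := key N hN2
    have h4 : μ (E N) ≤ μ (⋃ N : {N // M ≤ N}, E N.1) :=
      measure_mono (Set.subset_iUnion (fun N : {N // M ≤ N} => E N.1) ⟨N, hN⟩)
    refine le_trans ?_ h4
    rw [Measure.real] at h3
    exact ENNReal.ofReal_le_of_le_toReal h3
  have hfin : ENNReal.ofReal (c / 2) ≤ μ (⋂ M : ℕ, ⋃ N : {N // M ≤ N}, E N.1) :=
    ge_of_tendsto' htend hlow
  intro h0
  rw [h0] at hfin
  have : 0 < ENNReal.ofReal (c / 2) := ENNReal.ofReal_pos.mpr (by linarith)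
  exact absurd hfin (not_le.mpr this)

/-- Iterated Poincare recurrence. -/
theorem poincare_iter {Ω : Type} [MeasurableSpace Ω] (μ : Measure Ω) [IsProbabilityMeasure μ]
    (f : Ω → Ω) (hf : MeasurePreserving f μ μ) (B : Set Ω) (hB : MeasurableSet B) (h0 : μ B ≠ 0)
    (r : ℕ) : ∃ t : ℕ → ℕ, StrictMono t ∧ t 0 = 0 ∧ ∃ B' : Set Ω, B' ⊆ B ∧ MeasurableSet B' ∧
      μ B' ≠ 0 ∧ ∀ x ∈ B', ∀ i j : ℕ, i < j → j ≤ r → f^[t j - t i] x ∈ B := by
  induction r with
  | zero => exact ⟨id, strictMono_id, rfl, B, subset_rfl, hB, h0, fun x _ i j hij hj => by omega⟩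
  | succ r ih =>
    obtain ⟨t, ht, ht0, B', hB'B, hB', hB'0, hrec⟩ := ih
    have hcons : Conservative f μ := hf.conservative
    have hfr := hcons.frequently_measure_inter_ne_zero hB'.nullMeasurableSet hB'0
    obtain ⟨m, hm1, hm⟩ := (Filter.frequently_atTop.mp hfr) 1
    refine ⟨fun i => if i = 0 then 0 else m + t (i - 1), ?_, by simp, B' ∩ f^[m] ⁻¹' B',
      Set.inter_subset_left.trans hB'B, hB'.inter ((hf.iterate m).measurable hB'), hm, ?_⟩
    · refine strictMono_nat_of_lt_succ fun i => ?_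
      rcases Nat.eq_zero_or_pos i with rfl | hi
      · simp only [if_true]
        simp
        omega
      · have h1 : i ≠ 0 := by omega
        simp only [h1, if_false, Nat.succ_ne_zero, Nat.add_sub_cancel]
        have := ht (show i - 1 < i by omega)
        omega
    · rintro x ⟨hx1, hx2⟩ i j hij hj
      have hj0 : j ≠ 0 := by omega
      simp only [hj0, if_false]
      rcases Nat.eq_zero_or_pos i with rfl | hi
      · simp only [if_true, Nat.sub_zero]
        rw [Nat.add_comm, Function.iterate_add_apply]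
        rcases Nat.lt_or_ge 1 j with hj1 | hj1
        · have := hrec _ hx2 0 (j - 1) (by omega) (by omega)
          rwa [ht0, Nat.sub_zero] at this
        · have : j = 1 := by omega
          subst this
          simp only [Nat.sub_self, ht0, Function.iterate_zero, id]
          exact hB'B hx2
      · have h1 : i ≠ 0 := by omega
        simp only [h1, if_false]
        have := hrec x hx1 (i - 1) (j - 1) (by omega) (by omega)
        rwa [Nat.add_sub_add_left]

end Pool.Agent.W5h67.TR
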