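import Mathlib
import Pool.Agent.W5h67.TR.L

set_option autoImplicit false
open MeasureTheory Filter Finset

namespace Pool.Agent.W5h67.TR

/-- From Fejer averages to Cesaro averages along a subsequence. -/
theorem fejer_freq (σ : ℕ → ℝ) (a c : ℝ) (hc : c < 2 * a ^ 2)
    (h : ∀ N : ℕ, (N : ℝ) ^ 2 * a ^ 2 - N * a ≤ ∑ k ∈ Finset.range N, σ k) :
    ∃ᶠ N : ℕ in atTop, c * N ≤ σ N := by
  by_contra hcon
  rw [Filter.not_frequently] at hcon
  obtain ⟨K, hK⟩ := Filter.eventually_atTop.mp hcon
  set C : ℝ := ∑ k ∈ Finset.range K, |σ k - c * k| with hC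
  have hC0 : 0 ≤ C := Finset.sum_nonneg fun k _ => abs_nonneg _
  have hb : ∀ N : ℕ, ∑ k ∈ Finset.range N, (σ k - c * k) ≤ C := by
    intro N
    induction N with
    | zero => simpa using hC0
    | succ N ih =>
      rcases Nat.lt_or_ge N K with hN | hN
      · calc ∑ k ∈ Finset.range (N + 1), (σ k - c * k)
            ≤ ∑ k ∈ Finset.range (N + 1), |σ k - c * k| :=
              Finset.sum_le_sum fun k _ => le_abs_self _
          _ ≤ C := Finset.sum_le_sum_of_subset_of_nonneg
              (Finset.range_subset_range.mpr hN) fun _ _ _ => abs_nonneg _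
      · rw [Finset.sum_range_succ]
        have := hK N hN
        linarith [not_le.mp this]
  have hsum : ∀ N : ℕ, ∑ k ∈ Finset.range N, (k : ℝ) = N * (N - 1) / 2 := by
    intro N
    induction N with
    | zero => simp
    | succ N ih => rw [Finset.sum_range_succ, ih]; push_cast; ring
  have hall : ∀ N : ℕ, (N : ℝ) ^ 2 * a ^ 2 - N * a ≤ C + c * (N * (N - 1) / 2) := by
    intro N
    have h1 := h N
    have h2 := hb N
    rw [Finset.sum_sub_distrib, ← Finset.mul_sum, hsum N] at h2
    linarith
  -- e = a^2 - c/2 > 0 : e N^2 <= C + (a - c/2) N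
  obtain ⟨N, hN⟩ := exists_nat_gt ((C + |a - c / 2| + 1) / (a ^ 2 - c / 2))
  have he : 0 < a ^ 2 - c / 2 := by linarith
  rw [div_lt_iff₀ he] at hN
  have hN0 : 0 < (N : ℝ) := by
    by_contra hh
    have : (N : ℝ) = 0 := le_antisymm (not_lt.mp hh) (Nat.cast_nonneg _)
    rw [this] at hN
    have := abs_nonneg (a - c / 2)
    linarith
  have hN1 : 1 ≤ (N : ℝ) := by exact_mod_cast (by exact_mod_cast hN0 : 0 < N)
  have h3 := hall N
  have h4 := le_abs_self (a - c / 2)
  have h5 : (C + |a - c / 2| + 1) * N < N * (a ^ 2 - c / 2) * N := by nlinarith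
  nlinarith [mul_le_mul_of_nonneg_left hN1 hC0, mul_le_mul_of_nonneg_right h4 hN0.le]

/-- Two sets with total upper density above one meet after every shift. -/
theorem meet (P Q : ℕ → Prop) [DecidablePred P] [DecidablePred Q] (δ : ℝ) (hδ : 0 < δ) (t K : ℕ)
    (h : ∃ᶠ N : ℕ in atTop, (1 + δ) * N ≤ (((Finset.Icc 1 N).filter P).card : ℝ) +
      (((Finset.Icc 1 N).filter Q).card : ℝ)) :
    ∃ k l : ℕ, K ≤ k ∧ P k ∧ Q l ∧ k = l + t := by
  by_contra hcon
  push Not at hcon
  obtain ⟨M, hM⟩ := exists_nat_gt (((K : ℝ) + t) / δ)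
  obtain ⟨N, hN, hN2⟩ := (Filter.frequently_atTop.mp h) (M + 1)
  rw [div_lt_iff₀ hδ] at hM
  have hMN : (M : ℝ) ≤ N := by exact_mod_cast (by omega : M ≤ N)
  have hcard : ((Finset.Icc 1 N).filter P).card + ((Finset.Icc 1 N).filter Q).card ≤
      N + t + K := by
    have hdisj : Disjoint (((Finset.Icc 1 N).filter P) \ Finset.range K)
        (((Finset.Icc 1 N).filter Q).image (fun l => l + t)) := by
      rw [Finset.disjoint_left]
      intro k hk hk2
      obtain ⟨l, hl, rfl⟩ := Finset.mem_image.mp hk2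
      rw [Finset.mem_sdiff, Finset.mem_range, Finset.mem_filter] at hk
      exact hcon (l + t) l (by omega) hk.1.2 (Finset.mem_filter.mp hl).2 rfl
    have hsub : (((Finset.Icc 1 N).filter P) \ Finset.range K) ∪
        (((Finset.Icc 1 N).filter Q).image (fun l => l + t)) ⊆ Finset.Icc 1 (N + t) := by
      intro k hk
      rw [Finset.mem_union] at hk
      rcases hk with hk | hk
      · rw [Finset.mem_sdiff, Finset.mem_filter, Finset.mem_Icc] at hk
        rw [Finset.mem_Icc]
        omega
      · obtain ⟨l, hl, rfl⟩ := Finset.mem_image.mp hk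
        rw [Finset.mem_filter, Finset.mem_Icc] at hl
        rw [Finset.mem_Icc]
        omega
    have h1 := Finset.card_le_card hsub
    rw [Finset.card_union_of_disjoint hdisj, Finset.card_image_of_injective _
      (fun x y hxy => Nat.add_right_cancel hxy), Nat.card_Icc] at h1
    have h2 := Finset.le_card_sdiff (Finset.range K) ((Finset.Icc 1 N).filter P)
    rw [Finset.card_range] at h2
    omega
  have hcard' : (((Finset.Icc 1 N).filter P).card : ℝ) + (((Finset.Icc 1 N).filter Q).card : ℝ) ≤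
      N + t + K := by exact_mod_cast hcard
  nlinarith

end Pool.Agent.W5h67.TR
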