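import Mathlib

set_option autoImplicit false

/-!
# The mean square inequality for visits
-/

open MeasureTheory Finset

namespace Pool.Agent.W5h67.TR

theorem mean_sq {Ω : Type} [MeasurableSpace Ω] (μ : Measure Ω) [IsProbabilityMeasure μ]
    (f : Ω → Ω) (hf : MeasurePreserving f μ μ) (A : Set Ω) (hA : MeasurableSet A) (N : ℕ) :
    (N : ℝ) ^ 2 * μ.real A ^ 2 ≤ N * μ.real A +
      2 * ∑ k ∈ Finset.range N, ∑ d ∈ Finset.Icc 1 k, μ.real (A ∩ f^[d] ⁻¹' A) := by
  have hfi : ∀ k, MeasurePreserving (f^[k]) μ μ := fun k => hf.iterate k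
  have hAk : ∀ k, MeasurableSet (f^[k] ⁻¹' A) := fun k => (hfi k).measurable hA
  set s : ℕ → ℕ → ℝ := fun j k => μ.real (f^[j] ⁻¹' A ∩ f^[k] ⁻¹' A) with hs
  have hsymm : ∀ j k, s j k = s k j := fun j k => by
    simp only [hs, Set.inter_comm]
  have hshift : ∀ j d, s j (j + d) = μ.real (A ∩ f^[d] ⁻¹' A) := by
    intro j d
    have h1 : f^[j] ⁻¹' A ∩ f^[j + d] ⁻¹' A = f^[j] ⁻¹' (A ∩ f^[d] ⁻¹' A) := by
      rw [Set.preimage_inter, ← Set.preimage_comp, ← Function.iterate_add, Nat.add_comm d j]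
    simp only [hs]
    rw [h1, measureReal_def, measureReal_def,
      (hfi j).measure_preimage (hA.inter (hAk d)).nullMeasurableSet]
  have hdiag : ∀ j, s j j = μ.real A := by
    intro j
    have := hshift j 0
    simpa using this
  -- the double sum
  have hQ : ∀ N : ℕ, ∑ j ∈ range N, ∑ k ∈ range N, s j k = N * μ.real A +
      2 * ∑ k ∈ Finset.range N, ∑ d ∈ Finset.Icc 1 k, μ.real (A ∩ f^[d] ⁻¹' A) := by
    intro N
    induction N with
    | zero => simp
    | succ N ih =>
      have h1 : ∑ j ∈ range N, s j N = ∑ d ∈ Finset.Icc 1 N, μ.real (A ∩ f^[d] ⁻¹' A) := by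
        refine Finset.sum_bij' (fun j _ => N - j) (fun d _ => N - d) ?_ ?_ ?_ ?_ ?_
        · intro j hj
          simp only [Finset.mem_range, Finset.mem_Icc] at hj ⊢
          omega
        · intro d hd
          simp only [Finset.mem_range, Finset.mem_Icc] at hd ⊢
          omega
        · intro j hj
          simp only [Finset.mem_range] at hj
          omega
        · intro d hd
          simp only [Finset.mem_Icc] at hd
          omega
        · intro j hj
          simp only [Finset.mem_range] at hj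
          have h2 := hshift j (N - j)
          rwa [Nat.add_sub_cancel' hj.le] at h2
      have h3 : ∑ k ∈ range N, s N k = ∑ j ∈ range N, s j N :=
        Finset.sum_congr rfl fun k _ => hsymm N k
      rw [Finset.sum_range_succ]
      simp only [Finset.sum_range_succ _ N]
      rw [Finset.sum_add_distrib, ih, h3, h1, hdiag]
      push_cast
      ring
  -- Cauchy-Schwarz
  set g : Ω → ℝ := fun x => ∑ j ∈ range N, (f^[j] ⁻¹' A).indicator (fun _ => (1 : ℝ)) x with hg
  have hi : ∀ j, Integrable ((f^[j] ⁻¹' A).indicator (fun _ => (1 : ℝ))) μ := fun j =>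
    (integrable_const (1 : ℝ)).indicator (hAk j)
  have hgi : Integrable g μ := integrable_finsetSum _ fun j _ => hi j
  have hg1 : ∫ x, g x ∂μ = N * μ.real A := by
    rw [hg, integral_finsetSum _ fun j _ => hi j]
    have h1 : ∀ j ∈ range N, ∫ x, (f^[j] ⁻¹' A).indicator (fun _ => (1 : ℝ)) x ∂μ = μ.real A := by
      intro j _
      rw [integral_indicator_const _ (hAk j), smul_eq_mul, mul_one, measureReal_def,
        measureReal_def, (hfi j).measure_preimage hA.nullMeasurableSet]
    rw [Finset.sum_congr rfl h1, Finset.sum_const, card_range, nsmul_eq_mul]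
  have hgsq : ∀ x, g x ^ 2 = ∑ j ∈ range N, ∑ k ∈ range N,
      (f^[j] ⁻¹' A ∩ f^[k] ⁻¹' A).indicator (fun _ => (1 : ℝ)) x := by
    intro x
    simp only [hg]
    rw [sq, Finset.sum_mul_sum]
    refine Finset.sum_congr rfl fun j _ => Finset.sum_congr rfl fun k _ => ?_
    by_cases h1 : x ∈ f^[j] ⁻¹' A <;> by_cases h2 : x ∈ f^[k] ⁻¹' A <;>
      simp [Set.indicator, h1, h2]
  have hi2 : ∀ j k, Integrable ((f^[j] ⁻¹' A ∩ f^[k] ⁻¹' A).indicator (fun _ => (1 : ℝ))) μ :=
    fun j k => (integrable_const (1 : ℝ)).indicator ((hAk j).inter (hAk k))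
  have hg2 : ∫ x, g x ^ 2 ∂μ = ∑ j ∈ range N, ∑ k ∈ range N, s j k := by
    simp only [hgsq]
    rw [integral_finsetSum _ fun j _ => integrable_finsetSum _ fun k _ => hi2 j k]
    refine Finset.sum_congr rfl fun j _ => ?_
    rw [integral_finsetSum _ fun k _ => hi2 j k]
    refine Finset.sum_congr rfl fun k _ => ?_
    rw [integral_indicator_const _ ((hAk j).inter (hAk k)), smul_eq_mul, mul_one]
  have hgi2 : Integrable (fun x => g x ^ 2) μ := by
    simp only [hgsq]
    exact integrable_finsetSum _ fun j _ => integrable_finsetSum _ fun k _ => hi2 j k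
  rw [← hQ, ← hg2]
  set m : ℝ := N * μ.real A with hm
  have h0 : 0 ≤ ∫ x, (g x - m) ^ 2 ∂μ := integral_nonneg fun x => sq_nonneg _
  have h1 : ∫ x, (g x - m) ^ 2 ∂μ = ∫ x, g x ^ 2 ∂μ - m ^ 2 := by
    have h2 : ∀ x, (g x - m) ^ 2 = g x ^ 2 - (2 * m * g x - m ^ 2) := fun x => by ring
    simp only [h2]
    have h3 : Integrable (fun x => 2 * m * g x - m ^ 2) μ :=
      (hgi.const_mul (2 * m)).sub (integrable_const _)
    rw [integral_sub hgi2 h3, integral_sub (hgi.const_mul (2 * m)) (integrable_const _),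
      integral_const_mul, hg1, integral_const, probReal_univ, one_smul]
    ring
  rw [h1] at h0
  have h3 : (N : ℝ) ^ 2 * μ.real A ^ 2 = m ^ 2 := by rw [hm]; ring
  rw [h3]
  linarith

end Pool.Agent.W5h67.TR
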