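import Mathlib
import Pool.Agent.W5h67.TR.Half
import Pool.Agent.W5h67.TR.Sq

set_option autoImplicit false
open MeasureTheory Filter Finset

namespace Pool.Agent.W5h67.TR

/-- Sets of measure larger than one half. -/
theorem half_rec {Ω : Type} [MeasurableSpace Ω] (μ : Measure Ω) [IsProbabilityMeasure μ]
    (T S R : Ω → Ω) (hT : MeasurePreserving T μ μ) (hS : MeasurePreserving S μ μ)
    (hR : MeasurePreserving R μ μ) (A : Set Ω) (hA : MeasurableSet A)
    (ha : 1 / 2 < μ.real A) :
    ∃ m n : ℕ, 1 ≤ m ∧ 1 ≤ n ∧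
      μ (A ∩ T^[m] ⁻¹' A ∩ S^[m + n] ⁻¹' A ∩ R^[m + 2 * n] ⁻¹' A) ≠ 0 := by
  classical
  set a := μ.real A with hadef
  set R2 : Ω → Ω := R^[2] with hR2
  have hR2m : MeasurePreserving R2 μ μ := hR.iterate 2
  set V : ℕ → Set Ω := fun k => A ∩ S^[k] ⁻¹' A with hV
  set W : ℕ → Set Ω := fun k => A ∩ R2^[k] ⁻¹' A with hW
  have hVm : ∀ k, MeasurableSet (V k) := fun k => hA.inter ((hS.iterate k).measurable hA)
  have hWm : ∀ k, MeasurableSet (W k) := fun k => hA.inter ((hR2m.iterate k).measurable hA)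
  set σ : ℕ → ℝ := fun N => ∑ d ∈ Finset.Icc 1 N, (μ.real (V d) + μ.real (W d)) with hσ
  set b : ℝ := (a + 2 * a ^ 2) / 2 with hb
  have hba : a < b := by nlinarith
  have hb2 : b < 2 * a ^ 2 := by nlinarith
  have hfej := fejer_freq σ a b hb2 (by
    intro N
    have h1 := mean_sq μ S hS A hA N
    have h2 := mean_sq μ R2 hR2m A hA N
    have h3 : ∑ k ∈ Finset.range N, σ k =
        ∑ k ∈ Finset.range N, ∑ d ∈ Finset.Icc 1 k, μ.real (A ∩ S^[d] ⁻¹' A) +
        ∑ k ∈ Finset.range N, ∑ d ∈ Finset.Icc 1 k, μ.real (A ∩ R2^[d] ⁻¹' A) := by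
      rw [← Finset.sum_add_distrib]
      refine Finset.sum_congr rfl fun k _ => ?_
      rw [← Finset.sum_add_distrib]
    rw [h3]
    linarith)
  set G : ℕ → Ω → ℝ := fun N x => (∑ k ∈ Finset.Icc 1 N,
    ((V k).indicator (fun _ => (1 : ℝ)) x + (W k).indicator (fun _ => (1 : ℝ)) x)) / N with hG
  set F : ℕ → Ω → ℝ := fun N x => max 0 (G N x - 1) with hF
  have hGm : ∀ N, Measurable (G N) := fun N =>
    (Finset.measurable_sum _ fun k _ => (measurable_const.indicator (hVm k)).add
      (measurable_const.indicator (hWm k))).div_const _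
  have hFm : ∀ N, Measurable (F N) := fun N => measurable_const.max ((hGm N).sub_const 1)
  have hAind : ∀ (B : Set Ω) (x : Ω), B ⊆ A → B.indicator (fun _ => (1 : ℝ)) x ≤
      A.indicator (fun _ => (1 : ℝ)) x := fun B x hBA =>
    Set.indicator_le_indicator_of_subset hBA (fun _ => zero_le_one) x
  have hG2 : ∀ N x, G N x ≤ 2 * A.indicator (fun _ => (1 : ℝ)) x := by
    intro N x
    have hnn : 0 ≤ A.indicator (fun _ => (1 : ℝ)) x :=
      Set.indicator_nonneg (fun _ _ => zero_le_one) x
    rcases Nat.eq_zero_or_pos N with rfl | hN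
    · simp only [hG]
      simp
      linarith
    · simp only [hG]
      rw [div_le_iff₀ (by exact_mod_cast hN)]
      calc ∑ k ∈ Finset.Icc 1 N,
            ((V k).indicator (fun _ => (1 : ℝ)) x + (W k).indicator (fun _ => (1 : ℝ)) x)
          ≤ ∑ k ∈ Finset.Icc 1 N, 2 * A.indicator (fun _ => (1 : ℝ)) x :=
            Finset.sum_le_sum fun k _ => by
              have := hAind (V k) x Set.inter_subset_left
              have := hAind (W k) x Set.inter_subset_left
              linarith
        _ = 2 * A.indicator (fun _ => (1 : ℝ)) x * N := by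
            rw [Finset.sum_const, Nat.card_Icc, nsmul_eq_mul]
            simp
            ring
  have hG0 : ∀ N x, 0 ≤ G N x := fun N x =>
    div_nonneg (Finset.sum_nonneg fun k _ => add_nonneg
      (Set.indicator_nonneg (fun _ _ => zero_le_one) x)
      (Set.indicator_nonneg (fun _ _ => zero_le_one) x)) (Nat.cast_nonneg _)
  have hA1 : ∀ x, A.indicator (fun _ => (1 : ℝ)) x ≤ 1 := fun x => by
    by_cases hx : x ∈ A
    · rw [Set.indicator_of_mem hx]
    · rw [Set.indicator_of_notMem hx]; norm_num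
  have hF0 : ∀ N x, 0 ≤ F N x := fun N x => le_max_left _ _
  have hF1 : ∀ N x, F N x ≤ 1 := fun N x => max_le zero_le_one (by
    have := hG2 N x
    have := hA1 x
    linarith)
  have hGint : ∀ N, ∫ x, G N x ∂μ = σ N / N := by
    intro N
    simp only [hG]
    rw [integral_div, integral_finsetSum]
    · congr 1
      refine Finset.sum_congr rfl fun k _ => ?_
      rw [integral_add ((integrable_const (1 : ℝ)).indicator (hVm k))
        ((integrable_const (1 : ℝ)).indicator (hWm k)),
        integral_indicator_const _ (hVm k), integral_indicator_const _ (hWm k)]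
      simp
    · intro k _
      exact ((integrable_const (1 : ℝ)).indicator (hVm k)).add
        ((integrable_const (1 : ℝ)).indicator (hWm k))
  have hGi : ∀ N, Integrable (G N) μ := fun N =>
    Integrable.of_bound (hGm N).aestronglyMeasurable 2
      (Eventually.of_forall fun x => by
        rw [Real.norm_eq_abs, abs_of_nonneg (hG0 N x)]
        have := hG2 N x
        have := hA1 x
        linarith)
  have hFi : ∀ N, Integrable (F N) μ := fun N =>
    Integrable.of_bound (hFm N).aestronglyMeasurable 1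
      (Eventually.of_forall fun x => by
        rw [Real.norm_eq_abs, abs_of_nonneg (hF0 N x)]; exact hF1 N x)
  have hAi : Integrable (A.indicator (fun _ => (1 : ℝ))) μ :=
    (integrable_const (1 : ℝ)).indicator hA
  have hFG : ∀ N, σ N / N - a ≤ ∫ x, F N x ∂μ := by
    intro N
    have h1 : ∀ x, G N x - A.indicator (fun _ => (1 : ℝ)) x ≤ F N x := by
      intro x
      by_cases hx : x ∈ A
      · rw [Set.indicator_of_mem hx]; exact le_max_right _ _
      · have h2 := hG2 N x
        rw [Set.indicator_of_notMem hx] at h2 ⊢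
        have := hF0 N x
        linarith
    have h2 := integral_mono ((hGi N).sub hAi) (hFi N) h1
    have h3 : ∫ x, (G N - A.indicator (fun _ => (1 : ℝ))) x ∂μ = σ N / N - a := by
      simp only [Pi.sub_apply]
      rw [integral_sub (hGi N) hAi, hGint N, integral_indicator_const _ hA]
      simp [hadef]
    rw [← h3]
    exact h2
  have hfr : ∃ᶠ N : ℕ in atTop, b - a ≤ ∫ x, F N x ∂μ := by
    refine (hfej.and_eventually (eventually_ge_atTop 1)).mono ?_
    rintro N ⟨h1, h2⟩
    have h3 : b ≤ σ N / N := by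
      rw [le_div_iff₀ (by exact_mod_cast h2)]
      exact h1
    linarith [hFG N]
  have hE := limsup_pos μ F hFm hF0 hF1 (b - a) (by linarith) hfr
  set E : Set Ω := {x | ∃ᶠ N : ℕ in atTop, (b - a) / 2 ≤ F N x} with hEdef
  have hEm : MeasurableSet E := by
    have : E = ⋂ M : ℕ, ⋃ N : {N // M ≤ N}, {x | (b - a) / 2 ≤ F N.1 x} := by
      ext x
      simp only [hEdef, Set.mem_ofPred_eq, Set.mem_iInter, Set.mem_iUnion,
        Filter.frequently_atTop]
      constructor
      · intro hx M
        obtain ⟨N, hN, hN2⟩ := hx M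
        exact ⟨⟨N, hN⟩, hN2⟩
      · intro hx M
        obtain ⟨⟨N, hN⟩, hN2⟩ := hx M
        exact ⟨N, hN, hN2⟩
    rw [this]
    exact MeasurableSet.iInter fun M => MeasurableSet.iUnion fun N =>
      measurableSet_le measurable_const (hFm _)
  have hcard : ∀ (X : ℕ → Set Ω) (N : ℕ) (x : Ω) (_ : DecidablePred fun k => x ∈ X k),
      (∑ k ∈ Finset.Icc 1 N, (X k).indicator (fun _ => (1 : ℝ)) x) =
      (((Finset.Icc 1 N).filter (fun k => x ∈ X k)).card : ℝ) := by
    intro X N x _
    rw [Finset.card_filter]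
    push_cast
    refine Finset.sum_congr rfl fun k _ => ?_
    by_cases hx : x ∈ X k
    · rw [Set.indicator_of_mem hx]; simp [hx]
    · rw [Set.indicator_of_notMem hx]; simp [hx]
  have hEG : ∀ x ∈ E, ∃ᶠ N : ℕ in atTop, 1 + (b - a) / 2 ≤ G N x := by
    intro x hx
    have hx' : ∃ᶠ N : ℕ in atTop, (b - a) / 2 ≤ F N x := hx
    refine hx'.mono fun N hN => ?_
    simp only [hF] at hN
    rcases le_max_iff.mp hN with h1 | h1
    · exfalso; linarith
    · linarith
  have hEA : ∀ x ∈ E, x ∈ A := by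
    intro x hx
    obtain ⟨N, hN⟩ := (hEG x hx).exists
    by_contra hxA
    have := hG2 N x
    rw [Set.indicator_of_notMem hxA] at this
    linarith
  have hED : ∀ x ∈ E, ∃ᶠ N : ℕ in atTop, (1 + (b - a) / 2) * N ≤
      (((Finset.Icc 1 N).filter (fun k => x ∈ V k)).card : ℝ) +
      (((Finset.Icc 1 N).filter (fun k => x ∈ W k)).card : ℝ) := by
    intro x hx
    refine ((hEG x hx).and_eventually (eventually_ge_atTop 1)).mono ?_
    rintro N ⟨h1, h2⟩
    simp only [hG] at h1
    rw [le_div_iff₀ (by exact_mod_cast h2), Finset.sum_add_distrib] at h1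
    rw [← hcard V N x _, ← hcard W N x _]
    exact h1
  obtain ⟨t, ht, ht0, E', hE'E, hE'm, hE'0, hrec⟩ :=
    poincare_iter μ (T^[2]) (hT.iterate 2) E hEm hE 1
  have ht1 : 0 < t 1 := by
    have := ht (show 0 < 1 by norm_num)
    omega
  by_contra hcon
  push Not at hcon
  apply hE'0
  have hsub : E' ⊆ ⋃ p : {p : ℕ × ℕ // 1 ≤ p.1 ∧ 1 ≤ p.2},
      (A ∩ T^[p.1.1] ⁻¹' A ∩ S^[p.1.1 + p.1.2] ⁻¹' A ∩ R^[p.1.1 + 2 * p.1.2] ⁻¹' A) := by
    intro x hx
    have hxE := hE'E hx
    obtain ⟨k, l, hk, hPk, hQl, heq⟩ :=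
      meet (fun k => x ∈ V k) (fun k => x ∈ W k) ((b - a) / 2) (by linarith) (t 1)
        (2 * t 1 + 1) (hED x hxE)
    refine Set.mem_iUnion.mpr ⟨⟨(2 * t 1, k - 2 * t 1), ?_, ?_⟩, ?_⟩
    · show 1 ≤ 2 * t 1
      omega
    · show 1 ≤ k - 2 * t 1
      omega
    · refine ⟨⟨⟨hEA x hxE, ?_⟩, ?_⟩, ?_⟩
      · show T^[2 * t 1] x ∈ A
        rw [Function.iterate_mul]
        have := hrec x hx 0 1 (by norm_num) le_rfl
        rw [ht0, Nat.sub_zero] at this
        exact hEA _ this
      · show S^[2 * t 1 + (k - 2 * t 1)] x ∈ A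
        have : 2 * t 1 + (k - 2 * t 1) = k := by omega
        rw [this]
        exact hPk.2
      · show R^[2 * t 1 + 2 * (k - 2 * t 1)] x ∈ A
        have : 2 * t 1 + 2 * (k - 2 * t 1) = 2 * l := by omega
        rw [this, Function.iterate_mul]
        exact hQl.2
  refine measure_mono_null hsub (measure_iUnion_null fun p => ?_)
  exact hcon p.1.1 p.1.2 p.2.1 p.2.2

end Pool.Agent.W5h67.TR
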