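import Mathlib

/-!
# Corners with a positive difference
-/

set_option autoImplicit false

open MeasureTheory Filter Finset

namespace Pool.Agent.W5h67.TR

theorem corner_pos (ε : ℝ) (hε : 0 < ε) : ∃ n : ℕ, 1 ≤ n ∧ ∀ E : Finset (ℕ × ℕ),
    E ⊆ Finset.range n ×ˢ Finset.range n → ε * (n : ℝ) ^ 2 ≤ (E.card : ℝ) →
    ∃ i j d : ℕ, 1 ≤ d ∧ d ≤ n ∧ (i, j) ∈ E ∧ (i + d, j) ∈ E ∧ (i, j + d) ∈ E := by
  have hδ : 0 < ε ^ 2 / 4 := by positivity
  refine ⟨max 1 (cornersTheoremBound (ε ^ 2 / 4 / 9)), le_max_left _ _, ?_⟩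
  intro E hE hcard
  obtain ⟨n, hn⟩ : ∃ n, n = max 1 (cornersTheoremBound (ε ^ 2 / 4 / 9)) := ⟨_, rfl⟩
  rw [← hn] at hE hcard ⊢
  have hn1 : 1 ≤ n := hn ▸ le_max_left _ _
  have hnb : cornersTheoremBound (ε ^ 2 / 4 / 9) ≤ n := hn ▸ le_max_right _ _
  have hmem : ∀ p ∈ E, p.1 < n ∧ p.2 < n := by
    intro p hp
    have := hE hp
    rw [Finset.mem_product, Finset.mem_range, Finset.mem_range] at this
    exact this
  -- pigeonhole
  obtain ⟨c, -, hc⟩ := Finset.exists_le_card_fiber_of_nsmul_le_card_of_maps_to (s := E ×ˢ E)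
    (t := Finset.range (2 * n) ×ˢ Finset.range (2 * n))
    (f := fun x : (ℕ × ℕ) × (ℕ × ℕ) => (x.1.1 + x.2.1, x.1.2 + x.2.2))
    (b := ε ^ 2 / 4 * (n : ℝ) ^ 2)
    (by
      intro x hx
      rw [Finset.mem_product] at hx
      obtain ⟨h1, h2⟩ := hmem _ hx.1
      obtain ⟨h3, h4⟩ := hmem _ hx.2
      rw [Finset.mem_product, Finset.mem_range, Finset.mem_range]
      exact ⟨by dsimp only; omega, by dsimp only; omega⟩)
    ⟨(0, 0), by
      rw [Finset.mem_product]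
      constructor <;> rw [Finset.mem_range] <;> dsimp only <;> omega⟩
    (by
      rw [Finset.card_product, Finset.card_product, Finset.card_range, nsmul_eq_mul]
      push_cast
      have h1 : (2 * (n : ℝ)) * (2 * n) * (ε ^ 2 / 4 * (n : ℝ) ^ 2) = (ε * (n : ℝ) ^ 2) ^ 2 := by
        ring
      rw [h1, ← pow_two]
      exact pow_le_pow_left₀ (by positivity) hcard 2)
  set F := (E ×ˢ E).filter (fun x : (ℕ × ℕ) × (ℕ × ℕ) => (x.1.1 + x.2.1, x.1.2 + x.2.2) = c)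
    with hF
  have hFm : ∀ x ∈ F, x.1 ∈ E ∧ x.2 ∈ E ∧ x.1.1 + x.2.1 = c.1 ∧ x.1.2 + x.2.2 = c.2 := by
    intro x hx
    rw [hF, Finset.mem_filter, Finset.mem_product] at hx
    exact ⟨hx.1.1, hx.1.2, congrArg Prod.fst hx.2, congrArg Prod.snd hx.2⟩
  have hE' : ∀ p ∈ F.image Prod.fst, p ∈ E ∧ ∃ r ∈ E, p.1 + r.1 = c.1 ∧ p.2 + r.2 = c.2 := by
    intro p hp
    rw [Finset.mem_image] at hp
    obtain ⟨x, hx, rfl⟩ := hp
    obtain ⟨h1, h2, h3, h4⟩ := hFm x hx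
    exact ⟨h1, x.2, h2, h3, h4⟩
  have hcardF : (F.image Prod.fst).card = F.card := by
    apply Finset.card_image_of_injOn
    intro x hx y hy hxy
    obtain ⟨-, -, h3, h4⟩ := hFm x hx
    obtain ⟨-, -, h5, h6⟩ := hFm y hy
    rw [hxy] at h3 h4
    exact Prod.ext hxy (Prod.ext (by omega) (by omega))
  have hnot := corners_theorem_nat hδ hnb (F.image Prod.fst)
    (fun p hp => hE (hE' p hp).1) (by rw [hcardF]; exact hc)
  unfold IsCornerFree at hnot
  push Not at hnot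
  obtain ⟨x₁, y₁, x₂, y₂, ⟨h11, h12, h21, hadd⟩, hne⟩ := hnot
  rw [Finset.mem_coe] at h11 h12 h21
  obtain ⟨e11, r11, m11, a11, b11⟩ := hE' _ h11
  obtain ⟨e12, r12, m12, a12, b12⟩ := hE' _ h12
  obtain ⟨e21, r21, m21, a21, b21⟩ := hE' _ h21
  dsimp only at a11 b11 a12 b12 a21 b21
  rcases Nat.lt_or_ge x₁ x₂ with hlt | hge
  · refine ⟨x₁, y₁, x₂ - x₁, by omega, ?_, e11, ?_, ?_⟩
    · have := (hmem _ e21).1
      dsimp only at this
      omega
    · have : x₁ + (x₂ - x₁) = x₂ := by omega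
      rw [this]; exact e21
    · have : y₁ + (x₂ - x₁) = y₂ := by omega
      rw [this]; exact e12
  · have hlt : x₂ < x₁ := lt_of_le_of_ne hge (fun h => hne h.symm)
    refine ⟨r11.1, r11.2, x₁ - x₂, by omega, ?_, m11, ?_, ?_⟩
    · have := (hmem _ e11).1
      dsimp only at this
      omega
    · have h1 : r21 = (r11.1 + (x₁ - x₂), r11.2) := Prod.ext (by dsimp only; omega) (by dsimp only; omega)
      rw [← h1]; exact m21
    · have h1 : r12 = (r11.1, r11.2 + (x₁ - x₂)) := Prod.ext (by dsimp only; omega) (by dsimp only; omega)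
      rw [← h1]; exact m12

end Pool.Agent.W5h67.TR
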