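import Mathlib

/-!
# Recurrence along corners for two commuting transformations
-/

set_option autoImplicit false

open MeasureTheory Filter Finset

namespace Pool.Agent.W5h67.TR

theorem comm_sum (corner : ∀ ε : ℝ, 0 < ε → ∃ n : ℕ, 1 ≤ n ∧ ∀ E : Finset (ℕ × ℕ),
      E ⊆ Finset.range n ×ˢ Finset.range n → ε * (n : ℝ) ^ 2 ≤ (E.card : ℝ) →
      ∃ i j d : ℕ, 1 ≤ d ∧ d ≤ n ∧ (i, j) ∈ E ∧ (i + d, j) ∈ E ∧ (i, j + d) ∈ E)
    {Ω : Type} [MeasurableSpace Ω] (μ : Measure Ω) [IsProbabilityMeasure μ] (ε : ℝ) (hε : 0 < ε) :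
    ∃ n : ℕ, 1 ≤ n ∧ ∀ f g : Ω → Ω, MeasurePreserving f μ μ → MeasurePreserving g μ μ →
      (∀ x, f (g x) = g (f x)) → ∀ A : Set Ω, MeasurableSet A → 2 * ε ≤ μ.real A →
      ε ≤ (n : ℝ) ^ 2 * ∑ d ∈ Finset.Icc 1 n, μ.real (A ∩ f^[d] ⁻¹' A ∩ g^[d] ⁻¹' A) := by
  classical
  obtain ⟨n, hn, hcor⟩ := corner ε hε
  refine ⟨n, hn, ?_⟩
  intro f g hf hg hfg A hA hμA
  have hn0 : (0 : ℝ) < n := by exact_mod_cast hn
  let h : ℕ × ℕ → Ω → Ω := fun p => f^[p.1] ∘ g^[p.2]
  have hh : ∀ p, MeasurePreserving (h p) μ μ := fun p => (hf.iterate p.1).comp (hg.iterate p.2)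
  let S : Finset (ℕ × ℕ) := Finset.range n ×ˢ Finset.range n
  have hScard : (S.card : ℝ) = (n : ℝ) ^ 2 := by
    simp only [S, Finset.card_product, Finset.card_range]
    push_cast; ring
  let C : ℕ → Set Ω := fun d => A ∩ f^[d] ⁻¹' A ∩ g^[d] ⁻¹' A
  have hC : ∀ d, MeasurableSet (C d) := fun d =>
    (hA.inter ((hf.iterate d).measurable hA)).inter ((hg.iterate d).measurable hA)
  let F : Ω → ℝ := fun x => ∑ p ∈ S, (h p ⁻¹' A).indicator (fun _ => (1 : ℝ)) x
  have hFcard : ∀ x, F x = ((S.filter fun p => h p x ∈ A).card : ℝ) := by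
    intro x
    simp only [F, Set.indicator_apply, Set.mem_preimage]
    rw [Finset.sum_boole]
  have hFm : Measurable F := Finset.measurable_sum _ fun p _ =>
    measurable_const.indicator ((hh p).measurable hA)
  have hint : ∫ x, F x ∂μ = (n : ℝ) ^ 2 * μ.real A := by
    simp only [F]
    rw [integral_finset_sum _ (fun p _ => (integrable_const (1 : ℝ)).indicator ((hh p).measurable hA))]
    have h1 : ∀ p ∈ S, ∫ x, (h p ⁻¹' A).indicator (fun _ => (1 : ℝ)) x ∂μ = μ.real A := by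
      intro p _
      rw [integral_indicator_const _ ((hh p).measurable hA), smul_eq_mul, mul_one]
      exact (hh p).measureReal_preimage hA.nullMeasurableSet
    rw [Finset.sum_congr rfl h1, Finset.sum_const, nsmul_eq_mul, hScard]
  let B : Set Ω := {x | ε * (n : ℝ) ^ 2 ≤ F x}
  have hB : MeasurableSet B := measurableSet_le measurable_const hFm
  have hFle : ∀ x, F x ≤ (n : ℝ) ^ 2 := by
    intro x
    rw [hFcard, ← hScard]
    exact_mod_cast Finset.card_filter_le _ _
  have hpt : ∀ x, F x ≤ B.indicator (fun _ => (n : ℝ) ^ 2) x + ε * (n : ℝ) ^ 2 := by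
    intro x
    by_cases hx : x ∈ B
    · rw [Set.indicator_of_mem hx]
      have : 0 ≤ ε * (n : ℝ) ^ 2 := by positivity
      linarith [hFle x]
    · rw [Set.indicator_of_notMem hx, zero_add]
      simp only [B, Set.mem_setOf_eq, not_le] at hx
      exact hx.le
  have hFi : Integrable F μ := by
    refine Integrable.of_bound hFm.aestronglyMeasurable ((n : ℝ) ^ 2) (Eventually.of_forall fun x => ?_)
    rw [Real.norm_of_nonneg]
    · exact hFle x
    · rw [hFcard]; positivity
  have hμB : ε ≤ μ.real B := by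
    have h1 : ∫ x, F x ∂μ ≤ ∫ x, (B.indicator (fun _ => (n : ℝ) ^ 2) x + ε * (n : ℝ) ^ 2) ∂μ :=
      integral_mono hFi (((integrable_const _).indicator hB).add (integrable_const _)) hpt
    rw [integral_add ((integrable_const _).indicator hB) (integrable_const _),
      integral_indicator_const _ hB, integral_const, hint] at h1
    simp only [smul_eq_mul, probReal_univ, one_mul] at h1
    have hn2 : (0 : ℝ) < (n : ℝ) ^ 2 := by positivity
    have h2 : (n : ℝ) ^ 2 * (2 * ε) ≤ (n : ℝ) ^ 2 * μ.real A := mul_le_mul_of_nonneg_left hμA hn2.le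
    have h3 : (n : ℝ) ^ 2 * ε ≤ (n : ℝ) ^ 2 * μ.real B := by linarith
    exact le_of_mul_le_mul_left h3 hn2
  have hsub : B ⊆ ⋃ r ∈ S ×ˢ Finset.Icc 1 n, h r.1 ⁻¹' C r.2 := by
    intro x hx
    simp only [B, Set.mem_setOf_eq] at hx
    rw [hFcard] at hx
    obtain ⟨i, j, d, hd1, hdn, h1, h2, h3⟩ := hcor _ (Finset.filter_subset _ _) hx
    rw [Finset.mem_filter] at h1 h2 h3
    rw [Set.mem_iUnion₂]
    refine ⟨((i, j), d), ?_, ?_⟩
    · rw [Finset.mem_product, Finset.mem_Icc]
      exact ⟨h1.1, hd1, hdn⟩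
    · have hcomm : Function.Commute f g := fun x => hfg x
      refine ⟨⟨h1.2, ?_⟩, ?_⟩
      · have e : f^[d] (h (i, j) x) = h (i + d, j) x := by
          change f^[d] (f^[i] (g^[j] x)) = f^[i + d] (g^[j] x)
          rw [add_comm i d, Function.iterate_add_apply]
        change f^[d] (h (i, j) x) ∈ A
        rw [e]; exact h2.2
      · have e : g^[d] (h (i, j) x) = h (i, j + d) x := by
          change g^[d] (f^[i] (g^[j] x)) = f^[i] (g^[j + d] x)
          rw [add_comm j d, Function.iterate_add_apply]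
          exact ((hcomm.iterate_iterate i d) (g^[j] x)).symm
        change g^[d] (h (i, j) x) ∈ A
        rw [e]; exact h3.2
  refine hμB.trans ((measureReal_mono hsub (measure_ne_top _ _)).trans
    ((measureReal_biUnion_finset_le _ _).trans (le_of_eq ?_)))
  rw [Finset.sum_product]
  have h1 : ∀ p ∈ S, ∑ d ∈ Finset.Icc 1 n, μ.real (h p ⁻¹' C d) =
      ∑ d ∈ Finset.Icc 1 n, μ.real (C d) := by
    intro p _
    exact Finset.sum_congr rfl fun d _ => (hh p).measureReal_preimage (hC d).nullMeasurableSet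
  rw [Finset.sum_congr rfl h1, Finset.sum_const, nsmul_eq_mul, hScard]

end Pool.Agent.W5h67.TR
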