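import Mathlib

/-!
# Positive upper density from lower bounds on dilates
-/

set_option autoImplicit false

open MeasureTheory Filter Finset

namespace Pool.Agent.W5h67.TR

theorem dens (u : ℕ → ℝ) (hu : ∀ k, 0 ≤ u k) (ε : ℝ) (hε : 0 < ε) (n : ℕ) (hn : 1 ≤ n)
    (h : ∀ q : ℕ, 1 ≤ q → ε ≤ (n : ℝ) ^ 2 * ∑ d ∈ Finset.Icc 1 n, u (q * d)) :
    ∃ c : ℝ, 0 < c ∧ ∃ᶠ N : ℕ in Filter.atTop, c * N ≤ ∑ k ∈ Finset.Icc 1 N, u k := by
  have hn0 : (0 : ℝ) < n := by exact_mod_cast hn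
  refine ⟨ε / (n : ℝ) ^ 4, by positivity, ?_⟩
  rw [frequently_atTop]
  intro a
  refine ⟨n * (a + 1), by nlinarith, ?_⟩
  have h1 : ∀ d ∈ Finset.Icc 1 n, ∑ q ∈ Finset.Icc 1 (a + 1), u (q * d) ≤
      ∑ k ∈ Finset.Icc 1 (n * (a + 1)), u k := by
    intro d hd
    rw [Finset.mem_Icc] at hd
    rw [← Finset.sum_image (f := u) (g := fun q => q * d)]
    · refine Finset.sum_le_sum_of_subset_of_nonneg ?_ (fun k _ _ => hu k)
      intro k hk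
      rw [Finset.mem_image] at hk
      obtain ⟨q, hq, rfl⟩ := hk
      rw [Finset.mem_Icc] at hq ⊢
      constructor
      · exact Nat.mul_pos hq.1 hd.1
      · calc q * d ≤ (a + 1) * n := Nat.mul_le_mul hq.2 hd.2
          _ = n * (a + 1) := mul_comm _ _
    · intro q _ q' _ hqq
      exact Nat.eq_of_mul_eq_mul_right hd.1 hqq
  have h2 : ∑ d ∈ Finset.Icc 1 n, ∑ q ∈ Finset.Icc 1 (a + 1), u (q * d) ≤
      (n : ℝ) * ∑ k ∈ Finset.Icc 1 (n * (a + 1)), u k := by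
    refine (Finset.sum_le_sum h1).trans (le_of_eq ?_)
    rw [Finset.sum_const, Nat.card_Icc, nsmul_eq_mul]
    simp
  have h3 : ((a + 1 : ℕ) : ℝ) * (ε / (n : ℝ) ^ 2) ≤
      ∑ q ∈ Finset.Icc 1 (a + 1), ∑ d ∈ Finset.Icc 1 n, u (q * d) := by
    have h4 : ∀ q ∈ Finset.Icc 1 (a + 1), ε / (n : ℝ) ^ 2 ≤ ∑ d ∈ Finset.Icc 1 n, u (q * d) := by
      intro q hq
      rw [Finset.mem_Icc] at hq
      rw [div_le_iff₀ (by positivity), mul_comm]
      exact h q hq.1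
    have h5 := Finset.card_nsmul_le_sum _ _ _ h4
    rw [Nat.card_Icc, nsmul_eq_mul] at h5
    simpa using h5
  rw [Finset.sum_comm] at h3
  have h6 := h3.trans h2
  push_cast at h6 ⊢
  have h7 : ε / (n : ℝ) ^ 4 * ((n : ℝ) * ((a : ℝ) + 1)) =
      (((a : ℝ) + 1) * (ε / (n : ℝ) ^ 2)) / n := by
    field_simp
  rw [h7, div_le_iff₀ hn0, mul_comm (∑ k ∈ _, u k)]
  exact h6

end Pool.Agent.W5h67.TR
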