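import Mathlib

/-!
# A pigeonhole argument for sets of positive upper density
-/

set_option autoImplicit false

open MeasureTheory Filter Finset

namespace Pool.Agent.W5h67.TR

theorem pig (r : ℕ) (δ : ℝ) (hδ : 1 < ((r : ℝ) + 1) * δ) (t : ℕ → ℕ) (K : ℕ) (D : ℕ → Prop)
    [DecidablePred D]
    (h : ∃ᶠ N : ℕ in Filter.atTop, δ * N ≤ (((Finset.Icc 1 N).filter D).card : ℝ)) :
    ∃ i j : ℕ, i < j ∧ j ≤ r ∧ ∃ d d' : ℕ, K ≤ d ∧ K ≤ d' ∧ D d ∧ D d' ∧ d + t i = d' + t j := by
  obtain ⟨M, hM⟩ : ∃ M, M = ∑ i ∈ Finset.range (r + 1), t i := ⟨_, rfl⟩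
  have htM : ∀ i ∈ Finset.range (r + 1), t i ≤ M := fun i hi => by
    rw [hM]
    exact Finset.single_le_sum (f := t) (fun _ _ => Nat.zero_le _) hi
  obtain ⟨N0, hN0⟩ := exists_nat_gt ((((r : ℝ) + 1) * K + M + 1) / (((r : ℝ) + 1) * δ - 1))
  obtain ⟨N, hN, hD⟩ := Filter.frequently_atTop.1 h N0
  have hpos : 0 < ((r : ℝ) + 1) * δ - 1 := by linarith
  rw [div_lt_iff₀ hpos] at hN0
  have hNN : (N0 : ℝ) ≤ N := by exact_mod_cast hN
  have h1 : ((r : ℝ) + 1) * K + M + 1 < N * (((r : ℝ) + 1) * δ - 1) :=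
    hN0.trans_le (mul_le_mul_of_nonneg_right hNN hpos.le)
  let T := ((Finset.Icc 1 N).filter D).filter (fun d => K ≤ d)
  have hT : ((Finset.Icc 1 N).filter D).card ≤ T.card + K := by
    rw [← Finset.card_filter_add_card_filter_not (s := (Finset.Icc 1 N).filter D) (fun d => K ≤ d)]
    refine Nat.add_le_add_left ?_ _
    calc _ ≤ (Finset.range K).card := by
          apply Finset.card_le_card
          intro d hd
          rw [Finset.mem_filter] at hd
          rw [Finset.mem_range]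
          omega
      _ = K := Finset.card_range K
  have hcard : (Finset.range (N + M + 1)).card < (Finset.range (r + 1) ×ˢ T).card := by
    rw [Finset.card_product, Finset.card_range, Finset.card_range]
    have h2 : (((Finset.Icc 1 N).filter D).card : ℝ) ≤ T.card + K := by exact_mod_cast hT
    have h3 : δ * N ≤ T.card + K := hD.trans h2
    have h4 : ((r : ℝ) + 1) * (δ * N) ≤ ((r : ℝ) + 1) * (T.card + K) :=
      mul_le_mul_of_nonneg_left h3 (by positivity)
    have h5 : ((N + M + 1 : ℕ) : ℝ) < (((r + 1) * T.card : ℕ) : ℝ) := by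
      push_cast
      nlinarith
    exact_mod_cast h5
  obtain ⟨⟨i, d⟩, hid, ⟨j, d'⟩, hjd, hne, heq⟩ :=
    Finset.exists_ne_map_eq_of_card_lt_of_maps_to hcard
      (f := fun x : ℕ × ℕ => x.2 + t x.1) (by
        intro x hx
        have hx' := Finset.mem_product.1 (Finset.mem_coe.1 hx)
        have hx2 := Finset.mem_filter.1 (Finset.mem_filter.1 hx'.2).1
        have := htM _ hx'.1
        have h3 := (Finset.mem_Icc.1 hx2.1).2
        rw [Finset.mem_coe, Finset.mem_range]
        dsimp only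
        omega)
  rw [Finset.mem_product] at hid hjd
  dsimp only at hid hjd heq
  obtain ⟨hi, hd⟩ := hid
  obtain ⟨hj, hd'⟩ := hjd
  have hd1 := Finset.mem_filter.1 hd
  have hd2 := Finset.mem_filter.1 hd1.1
  have hd1' := Finset.mem_filter.1 hd'
  have hd2' := Finset.mem_filter.1 hd1'.1
  rw [Finset.mem_range] at hi hj
  rcases lt_trichotomy i j with hij | hij | hij
  · exact ⟨i, j, hij, by omega, d, d', hd1.2, hd1'.2, hd2.2, hd2'.2, heq⟩
  · exfalso
    subst hij
    exact hne (by rw [show d = d' by omega])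
  · exact ⟨j, i, hij, by omega, d', d, hd1'.2, hd1.2, hd2'.2, hd2.2, heq.symm⟩

end Pool.Agent.W5h67.TR
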