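import Mathlib
import Pool.Agent.W5h67.TR.A
import Pool.Agent.W5h67.TR.B
import Pool.Agent.W5h67.TR.C
import Pool.Agent.W5h67.TR.D
import Pool.Agent.W5h67.TR.L

set_option autoImplicit false
open MeasureTheory Filter Finset

namespace Pool.Agent.W5h67.TR

/-- The criterion. -/
theorem criterion {Ω : Type} [MeasurableSpace Ω] (μ : Measure Ω) [IsProbabilityMeasure μ]
    (T S R : Ω → Ω) (hT : MeasurePreserving T μ μ) (hS : MeasurePreserving S μ μ)
    (hR : MeasurePreserving R μ μ) (A : Set Ω) (hA : MeasurableSet A)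
    (c : ℝ) (hc : 0 < c)
    (h : ∃ᶠ N : ℕ in atTop,
      c * N ≤ ∑ k ∈ Finset.Icc 1 N, μ.real (A ∩ S^[k] ⁻¹' A ∩ R^[2 * k] ⁻¹' A)) :
    ∃ m n : ℕ, 1 ≤ m ∧ 1 ≤ n ∧
      μ (A ∩ T^[m] ⁻¹' A ∩ S^[m + n] ⁻¹' A ∩ R^[m + 2 * n] ⁻¹' A) ≠ 0 := by
  classical
  set V : ℕ → Set Ω := fun k => A ∩ S^[k] ⁻¹' A ∩ R^[2 * k] ⁻¹' A with hV
  have hVm : ∀ k, MeasurableSet (V k) := fun k =>
    (hA.inter ((hS.iterate k).measurable hA)).inter ((hR.iterate (2 * k)).measurable hA)
  set F : ℕ → Ω → ℝ := fun N x => (∑ k ∈ Finset.Icc 1 N, (V k).indicator (fun _ => (1 : ℝ)) x) / N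
    with hF
  have hFm : ∀ N, Measurable (F N) := fun N =>
    (Finset.measurable_sum _ fun k _ => measurable_const.indicator (hVm k)).div_const _
  have hind : ∀ k x, (V k).indicator (fun _ => (1 : ℝ)) x ≤ 1 := fun k x => by
    by_cases hx : x ∈ V k
    · rw [Set.indicator_of_mem hx]
    · rw [Set.indicator_of_notMem hx]; norm_num
  have hind0 : ∀ k x, 0 ≤ (V k).indicator (fun _ => (1 : ℝ)) x := fun k x =>
    Set.indicator_nonneg (fun _ _ => zero_le_one) x
  have hF0 : ∀ N x, 0 ≤ F N x := fun N x =>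
    div_nonneg (Finset.sum_nonneg fun k _ => hind0 k x) (Nat.cast_nonneg _)
  have hF1 : ∀ N x, F N x ≤ 1 := fun N x => by
    rcases Nat.eq_zero_or_pos N with rfl | hN
    · simp [hF]
    · rw [hF]
      simp only
      rw [div_le_one (by exact_mod_cast hN)]
      calc ∑ k ∈ Finset.Icc 1 N, (V k).indicator (fun _ => (1 : ℝ)) x
          ≤ ∑ k ∈ Finset.Icc 1 N, (1 : ℝ) := Finset.sum_le_sum fun k _ => hind k x
        _ = N := by simp
  have hFint : ∀ N, ∫ x, F N x ∂μ = (∑ k ∈ Finset.Icc 1 N, μ.real (V k)) / N := by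
    intro N
    simp only [hF]
    rw [integral_div, integral_finset_sum]
    · congr 1
      refine Finset.sum_congr rfl fun k _ => ?_
      rw [integral_indicator_const _ (hVm k)]
      simp
    · intro k _
      exact (integrable_const (1 : ℝ)).indicator (hVm k)
  have hfr : ∃ᶠ N : ℕ in atTop, c ≤ ∫ x, F N x ∂μ := by
    refine (h.and_eventually (eventually_ge_atTop 1)).mono ?_
    rintro N ⟨h1, h2⟩
    rw [hFint N, le_div_iff₀ (by exact_mod_cast h2)]
    exact h1
  have hE := limsup_pos μ F hFm hF0 hF1 c hc hfr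
  set E : Set Ω := {x | ∃ᶠ N : ℕ in atTop, c / 2 ≤ F N x} with hEdef
  have hEm : MeasurableSet E := by
    have : E = ⋂ M : ℕ, ⋃ N : {N // M ≤ N}, {x | c / 2 ≤ F N.1 x} := by
      ext x
      simp only [hEdef, Set.mem_ofPred_eq, Set.mem_iInter, Set.mem_iUnion,
        Filter.frequently_atTop]
      constructor
      · intro hx M
        obtain ⟨N, hN, hN2⟩ := hx M
        exact ⟨⟨N, hN⟩, hN2⟩
      · intro hx M
        obtain ⟨⟨N, hN⟩, hN2⟩ := hx M
        exact ⟨N, hN, hN2⟩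
    rw [this]
    exact MeasurableSet.iInter fun M => MeasurableSet.iUnion fun N =>
      measurableSet_le measurable_const (hFm _)
  have hcard : ∀ N x, (∑ k ∈ Finset.Icc 1 N, (V k).indicator (fun _ => (1 : ℝ)) x) =
      (((Finset.Icc 1 N).filter (fun k => x ∈ V k)).card : ℝ) := by
    intro N x
    rw [Finset.card_filter]
    push_cast
    refine Finset.sum_congr rfl fun k _ => ?_
    by_cases hx : x ∈ V k
    · rw [Set.indicator_of_mem hx]; simp [hx]
    · rw [Set.indicator_of_notMem hx]; simp [hx]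
  have hED : ∀ x ∈ E, ∃ᶠ N : ℕ in atTop,
      (c / 2) * N ≤ (((Finset.Icc 1 N).filter (fun k => x ∈ V k)).card : ℝ) := by
    intro x hx
    have hx' : ∃ᶠ N : ℕ in atTop, c / 2 ≤ F N x := hx
    refine (hx'.and_eventually (eventually_ge_atTop 1)).mono ?_
    rintro N ⟨h1, h2⟩
    rw [← hcard N x]
    simp only [hF] at h1
    rwa [le_div_iff₀ (by exact_mod_cast h2)] at h1
  have hEA : ∀ x ∈ E, x ∈ A := by
    intro x hx
    obtain ⟨N, hN1, hN⟩ := (Filter.frequently_atTop.mp (hED x hx)) 1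
    have hpos : 0 < (((Finset.Icc 1 N).filter (fun k => x ∈ V k)).card : ℝ) := by
      have : (0 : ℝ) < N := by exact_mod_cast hN1
      refine lt_of_lt_of_le (by positivity) hN
    have hpos' : 0 < ((Finset.Icc 1 N).filter (fun k => x ∈ V k)).card := by exact_mod_cast hpos
    obtain ⟨k, hk⟩ := Finset.card_pos.mp hpos'
    exact (Finset.mem_filter.mp hk).2.1.1
  -- choose r
  obtain ⟨r, hr⟩ := exists_nat_gt (1 / (c / 2))
  have hr' : 1 < ((r : ℝ) + 1) * (c / 2) := by
    rw [div_lt_iff₀ (by linarith)] at hr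
    nlinarith
  obtain ⟨t, ht, ht0, E', hE'E, hE'm, hE'0, hrec⟩ :=
    poincare_iter μ (T^[2]) (hT.iterate 2) E hEm hE r
  by_contra hcon
  push Not at hcon
  apply hE'0
  have hsub : E' ⊆ ⋃ p : {p : ℕ × ℕ // 1 ≤ p.1 ∧ 1 ≤ p.2},
      (A ∩ T^[p.1.1] ⁻¹' A ∩ S^[p.1.1 + p.1.2] ⁻¹' A ∩ R^[p.1.1 + 2 * p.1.2] ⁻¹' A) := by
    intro x hx
    have hxE := hE'E hx
    obtain ⟨i, j, hij, hjr, d, d', hd, hd', hDd, hDd', heq⟩ :=
      pig r (c / 2) hr' t (2 * t r + 1) (fun k => x ∈ V k) (hED x hxE)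
    have htij : t i < t j := ht hij
    have htj : t j ≤ t r := ht.monotone hjr
    refine Set.mem_iUnion.mpr ⟨⟨(2 * (t j - t i), d - 2 * (t j - t i)), ?_, ?_⟩, ?_⟩
    · show 1 ≤ 2 * (t j - t i)
      omega
    · show 1 ≤ d - 2 * (t j - t i)
      omega
    · refine ⟨⟨⟨hEA x hxE, ?_⟩, ?_⟩, ?_⟩
      · show T^[2 * (t j - t i)] x ∈ A
        rw [Function.iterate_mul]
        exact hEA _ (hrec x hx i j hij hjr)
      · show S^[2 * (t j - t i) + (d - 2 * (t j - t i))] x ∈ A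
        have : 2 * (t j - t i) + (d - 2 * (t j - t i)) = d := by omega
        rw [this]
        exact hDd.1.2
      · show R^[2 * (t j - t i) + 2 * (d - 2 * (t j - t i))] x ∈ A
        have : 2 * (t j - t i) + 2 * (d - 2 * (t j - t i)) = 2 * d' := by omega
        rw [this]
        exact hDd'.2
  refine measure_mono_null hsub (measure_iUnion_null fun p => ?_)
  exact hcon p.1.1 p.1.2 p.2.1 p.2.2

/-- Powers of `S` and `R` commute: the criterion holds. -/
theorem crit_of_commute {Ω : Type} [MeasurableSpace Ω] (μ : Measure Ω) [IsProbabilityMeasure μ]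
    (S R : Ω → Ω) (hS : MeasurePreserving S μ μ)
    (hR : MeasurePreserving R μ μ) (a b : ℕ) (ha : 1 ≤ a) (hb : 1 ≤ b)
    (hcomm : ∀ x, S^[a] (R^[b] x) = R^[b] (S^[a] x)) (A : Set Ω) (hA : MeasurableSet A)
    (h0 : μ A ≠ 0) :
    ∃ c : ℝ, 0 < c ∧ ∃ᶠ N : ℕ in atTop,
      c * N ≤ ∑ k ∈ Finset.Icc 1 N, μ.real (A ∩ S^[k] ⁻¹' A ∩ R^[2 * k] ⁻¹' A) := by
  have hpos : 0 < μ.real A := by
    rw [Measure.real]
    exact ENNReal.toReal_pos h0 (measure_ne_top _ _)
  obtain ⟨n, hn, hcs⟩ := comm_sum corner_pos μ (μ.real A / 2) (by linarith)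
  set u : ℕ → ℝ := fun k => μ.real (A ∩ S^[k] ⁻¹' A ∩ R^[2 * k] ⁻¹' A) with hu
  set L := a * b with hL
  have hL1 : 1 ≤ L := Nat.one_le_iff_ne_zero.mpr (by positivity)
  obtain ⟨c, hc, hfr⟩ := dens (fun k => u (L * k)) (fun k => measureReal_nonneg) (μ.real A / 2)
    (by linarith) n hn (by
      intro q hq
      have hcm : Function.Commute (S^[a]) (R^[b]) := fun x => hcomm x
      have h1 := hcs (S^[L * q]) (R^[2 * (L * q)]) (hS.iterate _) (hR.iterate _) (by
        have e1 : S^[L * q] = (S^[a])^[b * q] := by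
          rw [← Function.iterate_mul, hL]; congr 1; ring
        have e2 : R^[2 * (L * q)] = (R^[b])^[2 * (a * q)] := by
          rw [← Function.iterate_mul, hL]; congr 1; ring
        rw [e1, e2]
        exact fun x => (hcm.iterate_iterate (b * q) (2 * (a * q))) x) A hA (by linarith)
      refine h1.trans (le_of_eq ?_)
      congr 1
      refine Finset.sum_congr rfl fun d _ => ?_
      simp only [hu]
      rw [← Function.iterate_mul, ← Function.iterate_mul]
      have e3 : L * q * d = L * (q * d) := by ring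
      have e4 : 2 * (L * q) * d = 2 * (L * (q * d)) := by ring
      rw [e3, e4])
  have hLr : (0 : ℝ) < L := by exact_mod_cast hL1
  refine ⟨c / L, by positivity, ?_⟩
  have hstep : ∀ N : ℕ, c * N ≤ ∑ k ∈ Finset.Icc 1 N, u (L * k) →
      c / L * ((L * N : ℕ) : ℝ) ≤ ∑ k ∈ Finset.Icc 1 (L * N), u k := by
    intro N hN
    have e : c / L * ((L * N : ℕ) : ℝ) = c * N := by
      push_cast
      field_simp
    rw [e]
    refine hN.trans ?_
    have himg : ∑ k ∈ Finset.Icc 1 N, u (L * k) = ∑ k ∈ (Finset.Icc 1 N).image (fun k => L * k), u k := by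
      rw [Finset.sum_image]
      intro k _ k' _ hkk
      exact Nat.eq_of_mul_eq_mul_left hL1 hkk
    rw [himg]
    refine Finset.sum_le_sum_of_subset_of_nonneg ?_ fun k _ _ => measureReal_nonneg
    intro k hk
    obtain ⟨k', hk', rfl⟩ := Finset.mem_image.mp hk
    rw [Finset.mem_Icc] at hk' ⊢
    exact ⟨Nat.one_le_iff_ne_zero.mpr (by
      have := hk'.1
      positivity), Nat.mul_le_mul_left _ hk'.2⟩
  rw [Filter.frequently_atTop] at hfr ⊢
  intro M
  obtain ⟨N, hN, hN2⟩ := hfr M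
  exact ⟨L * N, hN.trans (Nat.le_mul_of_pos_left _ hL1), hstep N hN2⟩

end Pool.Agent.W5h67.TR
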